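import Mathlib
import Pool.Agent.Helper627.Sep

set_option autoImplicit false
open Set Filter Topology

namespace Pool.Agent.Results.MP_b0a983_gt.ThinSineStrip

/-- Small inductive dimension: `IndLT n X` says that `ind X ≤ n - 1`. So `IndLT 0 X` says that `X`
is empty, and `IndLT (n + 1) X` says that every point has arbitrarily small open neighbourhoods
whose boundaries satisfy `IndLT n`. -/
def IndLT : (n : ℕ) → (X : Type) → [TopologicalSpace X] → Prop
  | 0, X, _ => IsEmpty X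
  | n + 1, X, _ => ∀ x : X, ∀ U ∈ 𝓝 x,
      ∃ V : Set X, IsOpen V ∧ x ∈ V ∧ V ⊆ U ∧ IndLT n (frontier V)

/-- The local dimension `ind_x X` is at most `n`: the point `x` has arbitrarily small open
neighbourhoods whose boundaries have dimension at most `n - 1`. -/
def LocalIndLE (n : ℕ) {X : Type} [TopologicalSpace X] (x : X) : Prop :=
  ∀ U ∈ 𝓝 x, ∃ V : Set X, IsOpen V ∧ x ∈ V ∧ V ⊆ U ∧ IndLT n (frontier V)

/-- `ind_x X = 2`. -/
def TwoDimensionalAt {X : Type} [TopologicalSpace X] (x : X) : Prop :=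
  LocalIndLE 2 x ∧ ¬ LocalIndLE 1 x

/-! ### Upper bounds for the dimension -/

theorem indLT_one_of_finite (Y : Type) [TopologicalSpace Y] [T1Space Y] [Finite Y] : IndLT 1 Y := by
  intro x U hU
  have : DiscreteTopology Y := Finite.instDiscreteTopology
  refine ⟨{x}, isOpen_discrete _, rfl, singleton_subset_iff.2 (mem_of_mem_nhds hU), ?_⟩
  show IsEmpty (frontier ({x} : Set Y))
  rw [IsClopen.frontier_eq (isClopen_discrete _)]
  exact isEmpty_coe_sort.2 rfl

/-- a small box with sides avoiding two given finite sets -/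
theorem small_box {Y : Type} [TopologicalSpace Y] (e : Y → ℝ × ℝ) (he : Topology.IsEmbedding e)
    (z : Y) (U : Set Y) (hU : U ∈ 𝓝 z) (A B : Set ℝ) (hA : A.Finite) (hB : B.Finite) :
    ∃ c1 c2 d1 d2 : ℝ, c1 ∉ A ∧ c2 ∉ A ∧ d1 ∉ B ∧ d2 ∉ B ∧
      (c1 < (e z).1 ∧ (e z).1 < c2) ∧ (d1 < (e z).2 ∧ (e z).2 < d2) ∧
      e ⁻¹' (Ioo c1 c2 ×ˢ Ioo d1 d2) ⊆ U := by
  rw [he.nhds_eq_comap, mem_comap] at hU
  obtain ⟨W, hW, hWU⟩ := hU
  obtain ⟨ε, hε, hball⟩ := Metric.mem_nhds_iff.1 hW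
  obtain ⟨c1, hc1, hc1A⟩ := (Ioo_infinite (show (e z).1 - ε < (e z).1 by linarith)).exists_notMem_finite hA
  obtain ⟨c2, hc2, hc2A⟩ := (Ioo_infinite (show (e z).1 < (e z).1 + ε by linarith)).exists_notMem_finite hA
  obtain ⟨d1, hd1, hd1B⟩ := (Ioo_infinite (show (e z).2 - ε < (e z).2 by linarith)).exists_notMem_finite hB
  obtain ⟨d2, hd2, hd2B⟩ := (Ioo_infinite (show (e z).2 < (e z).2 + ε by linarith)).exists_notMem_finite hB
  refine ⟨c1, c2, d1, d2, hc1A, hc2A, hd1B, hd2B, ⟨hc1.2, hc2.1⟩, ⟨hd1.2, hd2.1⟩, ?_⟩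
  intro w hw
  apply hWU
  apply hball
  rw [Metric.mem_ball, Prod.dist_eq]
  obtain ⟨⟨h1, h2⟩, ⟨h3, h4⟩⟩ := hw
  apply max_lt
  · rw [Real.dist_eq, abs_lt]
    constructor <;> linarith [hc1.1, hc2.2]
  · rw [Real.dist_eq, abs_lt]
    constructor <;> linarith [hd1.1, hd2.2]

theorem frontier_box {Y : Type} [TopologicalSpace Y] (e : Y → ℝ × ℝ) (he : Continuous e)
    (c1 c2 d1 d2 : ℝ) (w : Y) (hw : w ∈ frontier (e ⁻¹' (Ioo c1 c2 ×ˢ Ioo d1 d2))) :
    ((e w).1 = c1 ∨ (e w).1 = c2) ∨ ((e w).2 = d1 ∨ (e w).2 = d2) := by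
  have hopen : IsOpen (e ⁻¹' (Ioo c1 c2 ×ˢ Ioo d1 d2)) := (isOpen_Ioo.prod isOpen_Ioo).preimage he
  have hcl : IsClosed (e ⁻¹' (Icc c1 c2 ×ˢ Icc d1 d2)) := (isClosed_Icc.prod isClosed_Icc).preimage he
  rw [hopen.frontier_eq] at hw
  have h1 : w ∈ e ⁻¹' (Icc c1 c2 ×ˢ Icc d1 d2) := by
    apply closure_minimal _ hcl hw.1
    intro z hz
    exact ⟨⟨hz.1.1.le, hz.1.2.le⟩, ⟨hz.2.1.le, hz.2.2.le⟩⟩
  obtain ⟨⟨h2, h3⟩, ⟨h4, h5⟩⟩ := h1
  by_contra hcon
  push Not at hcon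
  obtain ⟨⟨g1, g2⟩, ⟨g3, g4⟩⟩ := hcon
  exact hw.2 ⟨⟨lt_of_le_of_ne h2 (Ne.symm g1), lt_of_le_of_ne h3 g2⟩,
    ⟨lt_of_le_of_ne h4 (Ne.symm g3), lt_of_le_of_ne h5 g4⟩⟩

theorem indLT_two_of_lines (Y : Type) [TopologicalSpace Y] [T2Space Y] (e : Y → ℝ × ℝ)
    (he : Topology.IsEmbedding e) (A B : Set ℝ) (hA : A.Finite) (hB : B.Finite)
    (hY : ∀ z, (e z).1 ∈ A ∨ (e z).2 ∈ B) : IndLT 2 Y := by
  intro z U hU
  obtain ⟨c1, c2, d1, d2, hc1, hc2, hd1, hd2, hz1, hz2, hbox⟩ := small_box e he z U hU A B hA hB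
  refine ⟨e ⁻¹' (Ioo c1 c2 ×ˢ Ioo d1 d2), (isOpen_Ioo.prod isOpen_Ioo).preimage he.continuous,
    ⟨hz1, hz2⟩, hbox, ?_⟩
  have hfin : (frontier (e ⁻¹' (Ioo c1 c2 ×ˢ Ioo d1 d2))).Finite := by
    have hf : ((({c1, c2} : Set ℝ) ×ˢ B) ∪ (A ×ˢ ({d1, d2} : Set ℝ))).Finite :=
      (((finite_singleton c2).insert c1).prod hB).union (hA.prod ((finite_singleton d2).insert d1))
    apply (hf.preimage (f := e) he.injective.injOn).subset
    intro w hw
    have h1 := frontier_box e he.continuous c1 c2 d1 d2 w hw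
    rcases h1 with h1 | h1
    · left
      refine ⟨h1, ?_⟩
      rcases hY w with h2 | h2
      · exfalso
        rcases h1 with h1 | h1
        · rw [h1] at h2; exact hc1 h2
        · rw [h1] at h2; exact hc2 h2
      · exact h2
    · right
      refine ⟨?_, h1⟩
      rcases hY w with h2 | h2
      · exact h2
      · exfalso
        rcases h1 with h1 | h1
        · rw [h1] at h2; exact hd1 h2
        · rw [h1] at h2; exact hd2 h2
  have : Finite (frontier (e ⁻¹' (Ioo c1 c2 ×ˢ Ioo d1 d2))) := hfin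
  exact indLT_one_of_finite _

theorem localIndLE_two_of_planar (Y : Type) [TopologicalSpace Y] [T2Space Y] (e : Y → ℝ × ℝ)
    (he : Topology.IsEmbedding e) (x : Y) : LocalIndLE 2 x := by
  intro U hU
  obtain ⟨c1, c2, d1, d2, _, _, _, _, hz1, hz2, hbox⟩ :=
    small_box e he x U hU ∅ ∅ finite_empty finite_empty
  refine ⟨e ⁻¹' (Ioo c1 c2 ×ˢ Ioo d1 d2), (isOpen_Ioo.prod isOpen_Ioo).preimage he.continuous,
    ⟨hz1, hz2⟩, hbox, ?_⟩
  have hemb : Topology.IsEmbedding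
      (fun w : frontier (e ⁻¹' (Ioo c1 c2 ×ˢ Ioo d1 d2)) => e w.1) :=
    he.comp Topology.IsEmbedding.subtypeVal
  exact indLT_two_of_lines _ _ hemb {c1, c2} {d1, d2} ((finite_singleton c2).insert c1)
    ((finite_singleton d2).insert d1)
    (fun w => frontier_box e he.continuous c1 c2 d1 d2 w.1 w.2)

/-- a space of dimension at most zero is totally disconnected -/
theorem td_of_indLT_one {X : Type} [TopologicalSpace X] [T1Space X] (F : Set X)
    (hF : IndLT 1 F) : IsTotallyDisconnected F := by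
  rw [← totallyDisconnectedSpace_subtype_iff]
  constructor
  intro t _ ht z hz z' hz'
  by_contra hne
  have hU : ({z'}ᶜ : Set F) ∈ 𝓝 z := isOpen_compl_singleton.mem_nhds hne
  obtain ⟨W, hWo, hzW, hWU, hW0⟩ := hF z _ hU
  have hfr : frontier W = ∅ := isEmpty_coe_sort.1 hW0
  have hclopen : IsClopen W := isClopen_iff_frontier_eq_empty.2 hfr
  have hsub : t ⊆ W := ht.subset_isClopen hclopen ⟨z, hz, hzW⟩
  exact hWU (hsub hz') rfl

/-! ### The continuum -/

noncomputable def g (x : ℝ) : ℝ := x * Real.sin (1 / x)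

theorem g_cont : Continuous g := by
  rw [continuous_iff_continuousAt]
  intro t
  by_cases ht : t = 0
  · subst ht
    have h0 : g 0 = 0 := by simp [g]
    rw [ContinuousAt, h0]
    have hlim : Tendsto (fun t : ℝ => |t|) (𝓝 0) (𝓝 0) := by
      have := (continuous_abs (G := ℝ)).tendsto 0
      simpa using this
    apply squeeze_zero_norm _ hlim
    intro s
    rw [Real.norm_eq_abs]
    unfold g
    rw [abs_mul]
    have := Real.abs_sin_le_one (1 / s)
    nlinarith [abs_nonneg s]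
  · unfold g
    apply continuousAt_id.mul
    apply Real.continuous_sin.continuousAt.comp
    exact continuousAt_const.div continuousAt_id ht

/-- The thin strip around the graph of `sin (1/x)` together with its limit segment. For `x > 0` the
last two conditions say `sin (1/x) ≤ y ≤ sin (1/x) + x`; for `x = 0` they are void. -/
def S : Set (ℝ × ℝ) :=
  {p | (0 ≤ p.1 ∧ p.1 ≤ 1) ∧ (-1 ≤ p.2 ∧ p.2 ≤ 1 + p.1) ∧
    (g p.1 ≤ p.1 * p.2 ∧ p.1 * p.2 ≤ g p.1 + p.1 ^ 2)}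

/-- coordinates on the strip -/
noncomputable def ψ (q : ℝ × ℝ) : ℝ × ℝ := (q.1, Real.sin (1 / q.1) + q.2 * q.1)

theorem ψ_mem (x s : ℝ) (hx : 0 < x) (hx1 : x ≤ 1) (hs : 0 ≤ s) (hs1 : s ≤ 1) : ψ (x, s) ∈ S := by
  have h1 := Real.neg_one_le_sin (1 / x)
  have h2 := Real.sin_le_one (1 / x)
  have h3 : 0 ≤ s * x := mul_nonneg hs hx.le
  have h4 : s * x ≤ x := by nlinarith
  refine ⟨⟨hx.le, hx1⟩, ⟨?_, ?_⟩, ⟨?_, ?_⟩⟩
  · show -1 ≤ Real.sin (1 / x) + s * x; linarith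
  · show Real.sin (1 / x) + s * x ≤ 1 + x; linarith
  · show x * Real.sin (1 / x) ≤ x * (Real.sin (1 / x) + s * x)
    nlinarith
  · show x * (Real.sin (1 / x) + s * x) ≤ x * Real.sin (1 / x) + x ^ 2
    nlinarith

theorem exists_ψ (p : ℝ × ℝ) (hp : p ∈ S) (h : 0 < p.1) :
    ∃ s : ℝ, 0 ≤ s ∧ s ≤ 1 ∧ ψ (p.1, s) = p := by
  obtain ⟨_, _, h1, h2⟩ := hp
  unfold g at h1 h2
  have h3 : Real.sin (1 / p.1) ≤ p.2 := le_of_mul_le_mul_left h1 h
  have h4 : p.2 ≤ Real.sin (1 / p.1) + p.1 := by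
    have : p.1 * p.2 ≤ p.1 * (Real.sin (1 / p.1) + p.1) := by nlinarith
    exact le_of_mul_le_mul_left this h
  refine ⟨(p.2 - Real.sin (1 / p.1)) / p.1, div_nonneg (by linarith) h.le, ?_, ?_⟩
  · rw [div_le_one h]; linarith
  · apply Prod.ext
    · rfl
    · show Real.sin (1 / p.1) + (p.2 - Real.sin (1 / p.1)) / p.1 * p.1 = p.2
      rw [div_mul_cancel₀ _ h.ne']; ring

theorem S_compact : IsCompact S := by
  have hcl : IsClosed S := by
    have hg := g_cont
    have h1 : IsClosed {p : ℝ × ℝ | 0 ≤ p.1} := isClosed_le continuous_const continuous_fst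
    have h2 : IsClosed {p : ℝ × ℝ | p.1 ≤ 1} := isClosed_le continuous_fst continuous_const
    have h3 : IsClosed {p : ℝ × ℝ | -1 ≤ p.2} := isClosed_le continuous_const continuous_snd
    have h4 : IsClosed {p : ℝ × ℝ | p.2 ≤ 1 + p.1} := isClosed_le continuous_snd (by fun_prop)
    have h5 : IsClosed {p : ℝ × ℝ | g p.1 ≤ p.1 * p.2} := isClosed_le (by fun_prop) (by fun_prop)
    have h6 : IsClosed {p : ℝ × ℝ | p.1 * p.2 ≤ g p.1 + p.1 ^ 2} :=
      isClosed_le (by fun_prop) (by fun_prop)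
    exact (h1.inter h2).inter ((h3.inter h4).inter (h5.inter h6))
  apply (isCompact_Icc.prod isCompact_Icc : IsCompact (Icc (0 : ℝ) 1 ×ˢ Icc (-1 : ℝ) 2)).of_isClosed_subset hcl
  rintro p ⟨⟨h1, h2⟩, ⟨h3, h4⟩, _⟩
  exact ⟨⟨h1, h2⟩, ⟨h3, by linarith⟩⟩

/-- parameters converging to zero at which the sine takes a prescribed value -/
noncomputable def xs (y : ℝ) (n : ℕ) : ℝ := 1 / (Real.arcsin y + (n + 1 : ℕ) * (2 * Real.pi))

theorem xs_den (y : ℝ) (n : ℕ) : 1 < Real.arcsin y + (n + 1 : ℕ) * (2 * Real.pi) := by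
  have h1 := Real.neg_pi_div_two_le_arcsin y
  have h2 := Real.pi_gt_three
  have h3 : (1 : ℝ) ≤ (n + 1 : ℕ) := by push_cast; linarith [(Nat.cast_nonneg n : (0 : ℝ) ≤ n)]
  nlinarith

theorem xs_pos (y : ℝ) (n : ℕ) : 0 < xs y n := by
  have := xs_den y n
  unfold xs
  positivity

theorem xs_le (y : ℝ) (n : ℕ) : xs y n ≤ 1 := by
  have := xs_den y n
  unfold xs
  rw [div_le_one (by linarith)]
  exact this.le

theorem sin_xs (y : ℝ) (hy : -1 ≤ y) (hy1 : y ≤ 1) (n : ℕ) : Real.sin (1 / xs y n) = y := by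
  unfold xs
  rw [one_div_one_div, Real.sin_add_nat_mul_two_pi, Real.sin_arcsin hy hy1]

theorem xs_lim (y : ℝ) : Tendsto (xs y) atTop (𝓝 0) := by
  unfold xs
  have h1 : Tendsto (fun n : ℕ => Real.arcsin y + (n + 1 : ℕ) * (2 * Real.pi)) atTop atTop := by
    apply tendsto_atTop_add_const_left
    apply Tendsto.atTop_mul_const (by positivity)
    exact tendsto_natCast_atTop_atTop.comp (tendsto_add_atTop_nat 1)
  exact tendsto_const_nhds.div_atTop h1

theorem ψ_contOn (T : Set (ℝ × ℝ)) (hT : ∀ q ∈ T, q.1 ≠ 0) : ContinuousOn ψ T := by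
  unfold ψ
  apply ContinuousOn.prodMk continuousOn_fst
  apply ContinuousOn.add
  · apply Real.continuous_sin.comp_continuousOn
    exact continuousOn_const.div continuousOn_fst hT
  · exact continuousOn_snd.mul continuousOn_fst

theorem S_subset_closure : S ⊆ closure (ψ '' (Ioc (0 : ℝ) 1 ×ˢ Icc (0 : ℝ) 1)) := by
  intro p hp
  rcases eq_or_lt_of_le hp.1.1 with h | h
  · have hy : -1 ≤ p.2 := hp.2.1.1
    have hy1 : p.2 ≤ 1 := by have := hp.2.1.2; rw [← h] at this; linarith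
    apply mem_closure_of_tendsto (f := fun n => ψ (xs p.2 n, 0)) (b := atTop)
    · have h1 : (fun n => ψ (xs p.2 n, 0)) = fun n => (xs p.2 n, p.2) := by
        funext n
        show (xs p.2 n, Real.sin (1 / xs p.2 n) + 0 * xs p.2 n) = (xs p.2 n, p.2)
        rw [sin_xs p.2 hy hy1]; simp
      rw [h1]
      have h2 : p = (0, p.2) := Prod.ext h.symm rfl
      have h3 : Tendsto (fun n => (xs p.2 n, p.2)) atTop (𝓝 ((0 : ℝ), p.2)) :=
        (xs_lim p.2).prodMk_nhds tendsto_const_nhds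
      rwa [← h2] at h3
    · exact Eventually.of_forall fun n =>
        ⟨(xs p.2 n, 0), ⟨⟨xs_pos _ _, xs_le _ _⟩, ⟨le_rfl, zero_le_one⟩⟩, rfl⟩
  · obtain ⟨s, hs, hs1, hps⟩ := exists_ψ p hp h
    apply subset_closure
    exact ⟨(p.1, s), ⟨⟨h, hp.1.2⟩, ⟨hs, hs1⟩⟩, hps⟩

theorem strip_subset : ψ '' (Ioc (0 : ℝ) 1 ×ˢ Icc (0 : ℝ) 1) ⊆ S := by
  rintro _ ⟨⟨x, s⟩, ⟨hx, hs⟩, rfl⟩
  exact ψ_mem x s hx.1 hx.2 hs.1 hs.2

theorem S_connected : IsConnected S := by
  refine ⟨⟨ψ (1, 0), ψ_mem 1 0 one_pos le_rfl le_rfl zero_le_one⟩, ?_⟩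
  apply IsPreconnected.subset_closure _ strip_subset S_subset_closure
  apply (isPreconnected_Ioc.prod isPreconnected_Icc).image
  apply ψ_contOn
  rintro q ⟨hq, _⟩
  exact hq.1.ne'

/-- the lower bound for the dimension -/
theorem not_localIndLE_one (x : S) : ¬ LocalIndLE 1 x := by
  intro hloc
  -- a point of the strip different from x
  obtain ⟨q, hq0, hqx⟩ : ∃ q : S, 0 < q.1.1 ∧ q ≠ x := by
    by_cases h : (⟨ψ (1, 0), ψ_mem 1 0 one_pos le_rfl le_rfl zero_le_one⟩ : S) = x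
    · refine ⟨⟨ψ (1 / 2, 0), ψ_mem (1 / 2) 0 (by norm_num) (by norm_num) le_rfl zero_le_one⟩,
        by show (0 : ℝ) < 1 / 2; norm_num, ?_⟩
      intro h2
      have h3 := congrArg (fun z : S => z.1.1) (h2.trans h.symm)
      have h4 : (1 / 2 : ℝ) = 1 := h3
      norm_num at h4
    · exact ⟨_, by show (0 : ℝ) < 1; norm_num, h⟩
  have hr : 0 < dist q x := dist_pos.2 hqx
  obtain ⟨V, hVo, hxV, hVU, hfr⟩ := hloc (Metric.ball x (dist q x / 2))
    (Metric.ball_mem_nhds x (by positivity))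
  have hqV : q ∉ closure V := by
    intro h
    have h1 : q ∈ Metric.closedBall x (dist q x / 2) :=
      closure_minimal (hVU.trans Metric.ball_subset_closedBall) Metric.isClosed_closedBall h
    rw [Metric.mem_closedBall] at h1
    linarith
  have htd : IsTotallyDisconnected (frontier V) := td_of_indLT_one _ hfr
  -- a point of the strip in V
  obtain ⟨p, hpV, hp0⟩ : ∃ p : S, p ∈ V ∧ 0 < p.1.1 := by
    obtain ⟨W, hW, hWV⟩ := isOpen_induced_iff.1 hVo
    have hxW : x.1 ∈ W := by rw [← hWV] at hxV; exact hxV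
    obtain ⟨z, hzW, ⟨⟨u, s⟩, ⟨hu, hs⟩, hz⟩⟩ :=
      mem_closure_iff.1 (S_subset_closure x.2) W hW hxW
    have hzS : z ∈ S := by rw [← hz]; exact ψ_mem u s hu.1 hu.2 hs.1 hs.2
    refine ⟨⟨z, hzS⟩, ?_, ?_⟩
    · rw [← hWV]; exact hzW
    · show 0 < z.1
      rw [← hz]; exact hu.1
  set a := min p.1.1 q.1.1 / 2 with ha
  set b := max p.1.1 q.1.1 with hb
  have hmin : 0 < min p.1.1 q.1.1 := lt_min hp0 hq0
  have ha0 : 0 < a := by positivity
  have hab : a < b := by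
    have : min p.1.1 q.1.1 ≤ max p.1.1 q.1.1 := min_le_max
    linarith
  have hb1 : b ≤ 1 := max_le p.2.1.2 q.2.1.2
  -- the clamped parametrisation
  let cl : ℝ × ℝ → ℝ × ℝ := fun w =>
    ((projIcc a b hab.le w.1 : ℝ), (projIcc 0 1 (zero_le_one (α := ℝ)) w.2 : ℝ))
  have hclc : Continuous cl := by
    apply Continuous.prodMk
    · exact continuous_subtype_val.comp ((continuous_projIcc (h := hab.le)).comp continuous_fst)
    · exact continuous_subtype_val.comp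
        ((continuous_projIcc (h := zero_le_one (α := ℝ))).comp continuous_snd)
  have hclm : ∀ w, cl w ∈ Icc a b ×ˢ Icc (0 : ℝ) 1 := fun w =>
    ⟨(projIcc a b hab.le w.1).2, (projIcc 0 1 (zero_le_one (α := ℝ)) w.2).2⟩
  have hclid : ∀ w ∈ Icc a b ×ˢ Icc (0 : ℝ) 1, cl w = w := by
    rintro ⟨u, v⟩ ⟨hu, hv⟩
    show ((projIcc a b hab.le u : ℝ), (projIcc 0 1 (zero_le_one (α := ℝ)) v : ℝ)) = (u, v)
    rw [projIcc_of_mem hab.le hu, projIcc_of_mem _ hv]
  have hΨm : ∀ w, ψ (cl w) ∈ S := by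
    intro w
    obtain ⟨h1, h2⟩ := hclm w
    exact ψ_mem _ _ (lt_of_lt_of_le ha0 h1.1) (h1.2.trans hb1) h2.1 h2.2
  let Ψ : ℝ × ℝ → S := fun w => ⟨ψ (cl w), hΨm w⟩
  have hΨc : Continuous Ψ := by
    apply Continuous.subtype_mk
    have h1 : ContinuousOn ψ (Icc a b ×ˢ Icc (0 : ℝ) 1) :=
      ψ_contOn _ (fun q hq => (lt_of_lt_of_le ha0 hq.1.1).ne')
    have h2 := h1.comp hclc.continuousOn (s := univ) (fun w _ => hclm w)
    exact continuousOn_univ.1 h2
  have hΨinj : ∀ w ∈ Icc a b ×ˢ Icc (0 : ℝ) 1, ∀ w' ∈ Icc a b ×ˢ Icc (0 : ℝ) 1,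
      Ψ w = Ψ w' → w = w' := by
    intro w hw w' hw' h
    have h1 : ψ (cl w) = ψ (cl w') := congrArg Subtype.val h
    rw [hclid w hw, hclid w' hw'] at h1
    have h2 : (ψ w).1 = (ψ w').1 := congrArg Prod.fst h1
    have h3 : (ψ w).2 = (ψ w').2 := congrArg Prod.snd h1
    change w.1 = w'.1 at h2
    change Real.sin (1 / w.1) + w.2 * w.1 = Real.sin (1 / w'.1) + w'.2 * w'.1 at h3
    rw [← h2] at h3
    have h4 : w.2 * w.1 = w'.2 * w.1 := by linarith
    have h5 : w.1 ≠ 0 := (lt_of_lt_of_le ha0 hw.1.1).ne'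
    exact Prod.ext h2 (mul_right_cancel₀ h5 h4)
  apply Pool.Agent.Helper627.Sep.no_sep a b 0 1 hab zero_lt_one (Ψ ⁻¹' V) (Ψ ⁻¹' (closure V)ᶜ)
    (hVo.preimage hΨc) (isClosed_closure.isOpen_compl.preimage hΨc)
  · intro w _ h1 h2
    exact h2 (subset_closure h1)
  · intro t ht htc w hw w' hw'
    have himg : IsPreconnected (Ψ '' t) := htc.image Ψ hΨc.continuousOn
    have hsub : Ψ '' t ⊆ frontier V := by
      rintro _ ⟨v, hv, rfl⟩
      have h1 := (ht hv).2
      rw [hVo.frontier_eq]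
      constructor
      · by_contra hc
        exact h1 (Or.inr hc)
      · intro hc
        exact h1 (Or.inl hc)
    have := htd _ hsub himg ⟨w, hw, rfl⟩ ⟨w', hw', rfl⟩
    exact hΨinj w (ht hw).1 w' (ht hw').1 this
  · obtain ⟨s, hs, hs1, hps⟩ := exists_ψ p.1 p.2 hp0
    have hmem : ((p.1.1, s) : ℝ × ℝ) ∈ Icc a b ×ˢ Icc (0 : ℝ) 1 := by
      refine ⟨⟨?_, le_max_left _ _⟩, ⟨hs, hs1⟩⟩
      have := min_le_left p.1.1 q.1.1
      show a ≤ p.1.1
      linarith
    refine ⟨(p.1.1, s), hmem, ?_⟩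
    have : Ψ (p.1.1, s) = p := by
      apply Subtype.ext
      show ψ (cl (p.1.1, s)) = p.1
      rw [hclid _ hmem, hps]
    show Ψ (p.1.1, s) ∈ V
    rw [this]; exact hpV
  · obtain ⟨s, hs, hs1, hps⟩ := exists_ψ q.1 q.2 hq0
    have hmem : ((q.1.1, s) : ℝ × ℝ) ∈ Icc a b ×ˢ Icc (0 : ℝ) 1 := by
      refine ⟨⟨?_, le_max_right _ _⟩, ⟨hs, hs1⟩⟩
      have := min_le_right p.1.1 q.1.1
      show a ≤ q.1.1
      linarith
    refine ⟨(q.1.1, s), hmem, ?_⟩
    have : Ψ (q.1.1, s) = q := by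
      apply Subtype.ext
      show ψ (cl (q.1.1, s)) = q.1
      rw [hclid _ hmem, hps]
    show Ψ (q.1.1, s) ∈ (closure V)ᶜ
    rw [this]; exact hqV

theorem S_two (x : S) : TwoDimensionalAt x :=
  ⟨localIndLE_two_of_planar S Subtype.val Topology.IsEmbedding.subtypeVal x, not_localIndLE_one x⟩

/-- Answer to the question: there are a continuum, two-dimensional at each of its points, and a map
of it onto the unit interval without closed zero-dimensional section. -/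
theorem result : ¬ ∀ (X : Type) [MetricSpace X] [CompactSpace X] [ConnectedSpace X],
    (∀ x : X, TwoDimensionalAt x) → ∀ f : X → unitInterval, Continuous f → Function.Surjective f →
      ∃ K : Set X, IsClosed K ∧ K.Nonempty ∧ IsTotallyDisconnected K ∧ f '' K = univ := by
  intro hall
  have : CompactSpace S := isCompact_iff_compactSpace.1 S_compact
  have : ConnectedSpace S := isConnected_iff_connectedSpace.1 S_connected
  let f : S → unitInterval := fun p => ⟨p.1.1, p.2.1.1, p.2.1.2⟩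
  have hf : Continuous f := by
    apply Continuous.subtype_mk
    exact continuous_fst.comp continuous_subtype_val
  have hsurj : Function.Surjective f := by
    intro t
    rcases eq_or_lt_of_le t.2.1 with h | h
    · refine ⟨⟨(0, 0), ⟨le_rfl, zero_le_one⟩, ⟨by norm_num, by norm_num⟩, ?_⟩, ?_⟩
      · simp [g]
      · exact Subtype.ext h
    · exact ⟨⟨ψ (t, 0), ψ_mem t 0 h t.2.2 le_rfl zero_le_one⟩, Subtype.ext rfl⟩
  obtain ⟨K, hK, _, hKtd, hKf⟩ := hall S S_two f hf hsurj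
  have hmemS : ∀ t ∈ Icc (-1 : ℝ) 1, ((0, t) : ℝ × ℝ) ∈ S := by
    intro t ht
    refine ⟨⟨le_rfl, zero_le_one⟩, ⟨ht.1, by show t ≤ 1 + 0; linarith [ht.2]⟩, ?_⟩
    simp [g]
  -- the limit segment is contained in K
  have hseg : ∀ t (ht : t ∈ Icc (-1 : ℝ) 1), (⟨(0, t), hmemS t ht⟩ : S) ∈ K := by
    intro t ht
    have hq : ∀ n, ∃ q ∈ K, f q = ⟨xs t n, (xs_pos t n).le, xs_le t n⟩ := by
      intro n
      have : (⟨xs t n, (xs_pos t n).le, xs_le t n⟩ : unitInterval) ∈ f '' K := by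
        rw [hKf]; exact mem_univ _
      obtain ⟨q, hq, hqf⟩ := this
      exact ⟨q, hq, hqf⟩
    choose q hqK hqf using hq
    have hq1 : ∀ n, (q n).1.1 = xs t n := fun n => congrArg Subtype.val (hqf n)
    have hq2 : ∀ n, |(q n).1.2 - t| ≤ xs t n := by
      intro n
      have hpos : 0 < (q n).1.1 := by rw [hq1]; exact xs_pos t n
      obtain ⟨s, hs, hs1, hps⟩ := exists_ψ (q n).1 (q n).2 hpos
      have h1 : Real.sin (1 / (q n).1.1) + s * (q n).1.1 = (q n).1.2 := congrArg Prod.snd hps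
      rw [hq1, sin_xs t ht.1 ht.2] at h1
      rw [← h1, abs_le]
      have h2 := xs_pos t n
      constructor <;> nlinarith
    apply hK.mem_of_tendsto (f := q) (b := atTop) _ (Eventually.of_forall hqK)
    rw [tendsto_subtype_rng]
    have l1 : Tendsto (fun n => (q n).1.1) atTop (𝓝 0) := by
      have : (fun n => (q n).1.1) = xs t := funext hq1
      rw [this]; exact xs_lim t
    have l2 : Tendsto (fun n => (q n).1.2) atTop (𝓝 t) := by
      rw [tendsto_iff_dist_tendsto_zero]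
      apply squeeze_zero (fun _ => dist_nonneg) _ (xs_lim t)
      intro n
      rw [Real.dist_eq]; exact hq2 n
    exact l1.prodMk_nhds l2
  let c : Icc (-1 : ℝ) 1 → S := fun t => ⟨(0, t.1), hmemS t.1 t.2⟩
  have hc : Continuous c := by
    apply Continuous.subtype_mk
    exact continuous_const.prodMk continuous_subtype_val
  have hpc : IsPreconnected (c '' univ) := by
    apply IsPreconnected.image _ c hc.continuousOn
    exact isPreconnected_iff_preconnectedSpace.1 isPreconnected_Icc |>.isPreconnected_univ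
  have h0 : (0 : ℝ) ∈ Icc (-1 : ℝ) 1 := by constructor <;> norm_num
  have h1 : (1 : ℝ) ∈ Icc (-1 : ℝ) 1 := by constructor <;> norm_num
  have := hKtd (c '' univ) (by rintro _ ⟨t, _, rfl⟩; exact hseg t.1 t.2) hpc
    ⟨⟨0, h0⟩, mem_univ _, rfl⟩ ⟨⟨1, h1⟩, mem_univ _, rfl⟩
  have h2 : (0 : ℝ) = 1 := congrArg (fun z : S => z.1.2) this
  norm_num at h2

end Pool.Agent.Results.MP_b0a983_gt.ThinSineStrip
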